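import Pool.Agent.H258.AM.Main
import Pool.Agent.H258.AM.Frob

/-!
# Conjecture G depends only on the group generated by the coefficients

Let `C → B` be a homomorphism of groups which reflects the relations that a product of conjugates of
`c_1, ..., c_r` is trivial.  Then so does the embedding `G → G *_C B` for every group `G`
containing `C`.  Consequently Q1 for a system of equations over `G` is a property of the abstract
group generated by the coefficients.
-/

set_option autoImplicit false

namespace Pool.Agent.Results.MP_9999b4_al.CoefficientGroup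

open Monoid

universe u

/-- The map `f : G → H` reflects trivial products of `r` conjugacy classes: if `1` is a product of
`H`-conjugates of `f (g 0), ..., f (g (r-1))`, then `1` is a product of `G`-conjugates of
`g 0, ..., g (r-1)`. -/
def Reflects (r : ℕ) {G H : Type*} [Group G] [Group H] (f : G →* H) : Prop :=
  ∀ g : Fin r → G,
    (∃ h : Fin r → H, (List.ofFn fun i => h i * f (g i) * (h i)⁻¹).prod = 1) →
    ∃ x : Fin r → G, (List.ofFn fun i => x i * g i * (x i)⁻¹).prod = 1

/-- words in `G` and the letters `t_0, ..., t_(n-1)` -/
abbrev Words (G : Type u) [Group G] (n : ℕ) : Type u := Coprod G (FreeGroup (Fin n))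

/-- the group `H = (G * F) / ⟨⟨w_0, ..., w_(n-1)⟩⟩` -/
abbrev Ext {G : Type u} [Group G] {n : ℕ} (w : Fin n → Words G n) : Type u :=
  Words G n ⧸ Subgroup.normalClosure (Set.range w)

/-- the map `G → H` -/
def toExt {G : Type u} [Group G] {n : ℕ} (w : Fin n → Words G n) : G →* Ext w :=
  (QuotientGroup.mk' (Subgroup.normalClosure (Set.range w))).comp Coprod.inl

/-- the exponent sum of `t_i` -/
def eta {G : Type u} [Group G] {n : ℕ} (i : Fin n) : Words G n →* Multiplicative ℤ :=
  Coprod.lift (1 : G →* Multiplicative ℤ)
    (FreeGroup.lift fun k : Fin n => if k = i then Multiplicative.ofAdd (1 : ℤ) else 1)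

/-- the matrix of the exponent sums, as in the frozen statement -/
def expMat {G : Type u} [Group G] {n : ℕ} (w : Fin n → Words G n) : Matrix (Fin n) (Fin n) ℤ :=
  Matrix.of fun i j => Multiplicative.toAdd (eta i (w j))

/-- the system is nonsingular -/
def Nonsingular {G : Type u} [Group G] {n : ℕ} (w : Fin n → Words G n) : Prop :=
  (expMat w).det ≠ 0

/-- the words over `C` as words over `G` -/
def mapW {C G : Type u} [Group C] [Group G] (j : C →* G) (n : ℕ) : Words C n →* Words G n :=
  Coprod.map j (MonoidHom.id (FreeGroup (Fin n)))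

/-- the words over `G` with coefficients in the subgroup `A` -/
def CoeffsIn {G : Type u} [Group G] {n : ℕ} (A : Subgroup G) (w : Fin n → Words G n) : Prop :=
  ∀ k, w k ∈ Subgroup.closure ((Coprod.inl : G →* Words G n) '' (A : Set G) ∪
    Set.range (Coprod.inr : FreeGroup (Fin n) →* Words G n))

/-- the amalgamated product of `G` and `B` over `C`, that is, the pushout of `jG` and `jB`; here
`famHom jG jB` is the family consisting of the two homomorphisms `jG` and `jB` -/
abbrev Amalgam {C G B : Type u} [Group C] [Group G] [Group B] (jG : C →* G) (jB : C →* B) :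
    Type u := PushoutI (Pool.Agent.H258.AM.famHom jG jB)

/-- the canonical map `G → G *_C B` -/
abbrev toAmalgam {C G B : Type u} [Group C] [Group G] [Group B] (jG : C →* G) (jB : C →* B) :
    G →* Amalgam jG jB := Pool.Agent.H258.AM.embG jG jB

/-! ### proofs -/

theorem reflects_amalgam {r : ℕ} {C G B : Type u} [Group C] [Group G] [Group B] (jG : C →* G)
    (jB : C →* B) (hG : Function.Injective jG) (hB : Reflects r jB) :
    Reflects r (toAmalgam jG jB) :=
  Pool.Agent.H258.AM.consAt_of jG jB hG hB

theorem push {G H A : Type*} [Group G] [Group H] [Group A] (f : G →* H) (p : H →* A) {r : ℕ}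
    (g : Fin r → G)
    (h : ∃ h : Fin r → H, (List.ofFn fun i => h i * f (g i) * (h i)⁻¹).prod = 1) :
    ∃ h : Fin r → A, (List.ofFn fun i => h i * p (f (g i)) * (h i)⁻¹).prod = 1 := by
  obtain ⟨h, hh⟩ := h
  refine ⟨fun i => p (h i), ?_⟩
  have := congrArg p hh
  rw [map_one, map_list_prod, List.map_ofFn] at this
  rw [← this]
  congr 2
  funext i
  simp

/-- the map from `H` to the amalgamated product -/
theorem exists_hom {C G : Type u} [Group C] [Group G] (j : C →* G) {n : ℕ}
    (w : Fin n → Words C n) :
    ∃ p : Ext (fun k => mapW j n (w k)) →* Amalgam j (toExt w),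
      ∀ g, p (toExt (fun k => mapW j n (w k)) g) = toAmalgam j (toExt w) g := by
  let β : FreeGroup (Fin n) →* Amalgam j (toExt w) :=
    (Pool.Agent.H258.AM.embB j (toExt w)).comp
      ((QuotientGroup.mk' (Subgroup.normalClosure (Set.range w))).comp Coprod.inr)
  let F : Words G n →* Amalgam j (toExt w) := Coprod.lift (toAmalgam j (toExt w)) β
  have hF : F.comp (mapW j n) = (Pool.Agent.H258.AM.embB j (toExt w)).comp
      (QuotientGroup.mk' (Subgroup.normalClosure (Set.range w))) := by
    apply Coprod.hom_ext
    · ext c
      simp only [F, mapW, MonoidHom.comp_apply, Coprod.map_apply_inl, Coprod.lift_apply_inl]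
      exact Pool.Agent.H258.AM.embG_eq_embB j (toExt w) c
    · ext i
      simp only [F, mapW, MonoidHom.comp_apply, Coprod.map_apply_inr, Coprod.lift_apply_inr,
        MonoidHom.id_apply]
      rfl
  have hker : Subgroup.normalClosure (Set.range fun k => mapW j n (w k)) ≤ F.ker := by
    apply Subgroup.normalClosure_le_normal
    rintro _ ⟨k, rfl⟩
    show F (mapW j n (w k)) = 1
    have h1 := DFunLike.congr_fun hF (w k)
    rw [MonoidHom.comp_apply] at h1
    rw [h1, MonoidHom.comp_apply]
    have h2 : QuotientGroup.mk' (Subgroup.normalClosure (Set.range w)) (w k) = 1 :=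
      (QuotientGroup.eq_one_iff _).2 (Subgroup.subset_normalClosure ⟨k, rfl⟩)
    rw [h2, map_one]
  refine ⟨QuotientGroup.lift _ F hker, fun g => ?_⟩
  show F (Coprod.inl g) = _
  simp only [F, Coprod.lift_apply_inl]

theorem reflects_of_coefficients {r : ℕ} {C G : Type u} [Group C] [Group G] (j : C →* G)
    (hj : Function.Injective j) {n : ℕ} (w : Fin n → Words C n) (hw : Reflects r (toExt w)) :
    Reflects r (toExt fun k => mapW j n (w k)) := by
  intro g h
  obtain ⟨p, hp⟩ := exists_hom j w
  have h1 := push _ p g h
  simp only [hp] at h1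
  exact reflects_amalgam j (toExt w) hj hw g h1

theorem exists_lift {G : Type u} [Group G] {n : ℕ} (A : Subgroup G) (w : Fin n → Words G n)
    (hw : CoeffsIn A w) : ∃ w' : Fin n → Words A n, ∀ k, mapW A.subtype n (w' k) = w k := by
  have h : Subgroup.closure ((Coprod.inl : G →* Words G n) '' (A : Set G) ∪
      Set.range (Coprod.inr : FreeGroup (Fin n) →* Words G n)) ≤ (mapW A.subtype n).range := by
    rw [Subgroup.closure_le]
    rintro x (⟨a, ha, rfl⟩ | ⟨f, rfl⟩)
    · exact ⟨Coprod.inl ⟨a, ha⟩, by simp [mapW]⟩
    · exact ⟨Coprod.inr f, by simp [mapW]⟩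
  choose w' hw' using fun k => h (hw k)
  exact ⟨w', hw'⟩

theorem eta_mapW {C G : Type u} [Group C] [Group G] (j : C →* G) {n : ℕ} (i : Fin n) :
    (eta i).comp (mapW j n) = eta i := by
  apply Coprod.hom_ext
  · ext c; simp [eta, mapW]
  · ext k; simp [eta, mapW]

theorem expMat_mapW {C G : Type u} [Group C] [Group G] (j : C →* G) {n : ℕ}
    (w : Fin n → Words C n) : expMat (fun k => mapW j n (w k)) = expMat w := by
  ext i k
  simp only [expMat, Matrix.of_apply]
  rw [← eta_mapW j i]
  rfl

theorem expMat_library {G : Type u} [Group G] {n : ℕ} (w : Fin n → Words G n) :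
    (Pool.Agent.Results.MP_e9d015_al.FrobeniusSystems.expMat w) = (expMat w).transpose := by
  ext j i
  simp only [Pool.Agent.Results.MP_e9d015_al.FrobeniusSystems.expMat, expMat, Matrix.of_apply,
    Matrix.transpose_apply]
  let ev : Multiplicative (Fin n → ℤ) →* Multiplicative ℤ :=
    AddMonoidHom.toMultiplicative (Pi.evalAddMonoidHom (fun _ : Fin n => ℤ) i)
  have h : ev.comp (Pool.Agent.Results.MP_e9d015_al.FrobeniusSystems.exv G n) = eta i := by
    apply Coprod.hom_ext
    · ext g
      simp [Pool.Agent.Results.MP_e9d015_al.FrobeniusSystems.exv, eta]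
    · ext k
      simp only [Pool.Agent.Results.MP_e9d015_al.FrobeniusSystems.exv, eta, MonoidHom.comp_apply,
        Coprod.lift_apply_inr, FreeGroup.lift_apply_of, ev]
      show (Pi.single k (1 : ℤ) : Fin n → ℤ) i = Multiplicative.toAdd _
      by_cases hk : k = i
      · subst hk; simp
      · rw [if_neg hk, Pi.single_eq_of_ne (Ne.symm hk)]; rfl
  rw [← h]
  rfl

/-- **Conjecture G depends only on the coefficient group.**

(1) Let `C`, `B` be groups and `jB : C → B` a homomorphism. Then `jB` reflects trivial products of
`r` conjugacy classes if and only if, for every group `G` and every embedding `C → G`, the map from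
`G` to the amalgamated product of `G` and `B` over `C` does.

(2) Let `w` be a system of `n` words over a group `C`. The implication of Q1 holds for `w`, `C` and
`r` if and only if it holds for `w`, `r` and all groups `G` in which `C` is embedded.

(3) Let `A` be a group such that the implication of Q1 holds for `r` and all nonsingular systems
over `A`. Then it holds for `r`, all groups `G` and all nonsingular systems over `G` whose
coefficients lie in a subgroup isomorphic to `A`.

(4) Unconditionally, it holds for all `r`, all groups `G` and all nonsingular systems over `G` whose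
coefficients lie in a subgroup isomorphic to the semidirect product of an abelian group `V` and the
cyclic group of order `p ^ (k + 1)`, `p` prime, on which a generator acts by an automorphism `α` with
`∑ α ^ (i p ^ k) = 0` (sum over `i < p`), provided that `k = 0` or every element of `V` is a `p`-th
multiple. For instance (`p = 2`, `k = 0`) the coefficients may lie in a generalized dihedral subgroup,
or (`p = 3`, `k = 0`) in an alternating group of degree four or a Frobenius group of order `21`. -/
theorem result :
    (∀ (r : ℕ) (C B : Type u) [Group C] [Group B] (jB : C →* B),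
      Reflects r jB ↔ ∀ (G : Type u) [Group G] (jG : C →* G), Function.Injective jG →
        Reflects r (toAmalgam jG jB)) ∧
    (∀ (r : ℕ) (C : Type u) [Group C] (n : ℕ) (w : Fin n → Words C n),
      Reflects r (toExt w) ↔ ∀ (G : Type u) [Group G] (j : C →* G), Function.Injective j →
        Reflects r (toExt fun k => mapW j n (w k))) ∧
    (∀ (r : ℕ) (A : Type u) [Group A],
      (∀ (n : ℕ) (w : Fin n → Words A n), Nonsingular w → Reflects r (toExt w)) →
      ∀ (G : Type u) [Group G] (D : Subgroup G), Nonempty (D ≃* A) →
        ∀ (n : ℕ) (w : Fin n → Words G n), Nonsingular w → CoeffsIn D w →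
          Reflects r (toExt w)) ∧
    (∀ (p k : ℕ) [Fact p.Prime] (V : Type u) [CommGroup V]
      (φ : Multiplicative (ZMod (p ^ (k + 1))) →* MulAut V),
      (∀ v : V, ∏ i ∈ Finset.range p,
        φ (Multiplicative.ofAdd ((i * p ^ k : ℕ) : ZMod (p ^ (k + 1)))) v = 1) →
      (k = 0 ∨ ∀ v : V, ∃ v' : V, v' ^ p = v) →
      ∀ (r : ℕ) (G : Type u) [Group G] (D : Subgroup G),
        Nonempty (D ≃* SemidirectProduct V (Multiplicative (ZMod (p ^ (k + 1)))) φ) →
        ∀ (n : ℕ) (w : Fin n → Words G n), Nonsingular w → CoeffsIn D w →
          Reflects r (toExt w)) := by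
  have h3 : ∀ (r : ℕ) (A : Type u) [Group A],
      (∀ (n : ℕ) (w : Fin n → Words A n), Nonsingular w → Reflects r (toExt w)) →
      ∀ (G : Type u) [Group G] (D : Subgroup G), Nonempty (D ≃* A) →
        ∀ (n : ℕ) (w : Fin n → Words G n), Nonsingular w → CoeffsIn D w →
          Reflects r (toExt w) := by
    intro r A _ hA G _ D hD n w hw hc
    obtain ⟨e⟩ := hD
    obtain ⟨w', hw'⟩ := exists_lift D w hc
    let j : A →* G := D.subtype.comp e.symm.toMonoidHom
    have hj : Function.Injective j := D.subtype_injective.comp e.symm.injective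
    let w'' : Fin n → Words A n := fun k => mapW e.toMonoidHom n (w' k)
    have hcomp : (mapW j n).comp (mapW e.toMonoidHom n) = mapW D.subtype n := by
      apply Coprod.hom_ext
      · ext d; simp [mapW, j]
      · ext k; simp [mapW]
    have hw'' : (fun k => mapW j n (w'' k)) = w := by
      funext k
      rw [← hw' k, ← hcomp]
      rfl
    have hns : Nonsingular w'' := by
      rw [Nonsingular, ← expMat_mapW j w'', hw'']
      exact hw
    have := reflects_of_coefficients j hj w'' (hA n w'' hns)
    rw [hw''] at this
    exact this
  refine ⟨?_, ?_, h3, ?_⟩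
  · intro r C B _ _ jB
    constructor
    · intro hB G _ jG hG
      exact reflects_amalgam jG jB hG hB
    · intro h g hh
      have h1 := h C (MonoidHom.id C) Function.injective_id g
      apply h1
      have h2 := push jB (Pool.Agent.H258.AM.embB (MonoidHom.id C) jB) g hh
      obtain ⟨x, hx⟩ := h2
      refine ⟨x, ?_⟩
      rw [← hx]
      congr 2
      funext i
      rw [← Pool.Agent.H258.AM.embG_eq_embB]
      rfl
  · intro r C _ n w
    constructor
    · intro hw G _ j hj
      exact reflects_of_coefficients j hj w hw
    · intro h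
      have h1 := h C (MonoidHom.id C) Function.injective_id
      have h2 : (fun k => mapW (MonoidHom.id C) n (w k)) = w := by
        have : mapW (MonoidHom.id C) n = MonoidHom.id (Words C n) := by
          apply Coprod.hom_ext
          · ext c; simp [mapW]
          · ext k; simp [mapW]
        funext k
        rw [this]
        rfl
      rw [h2] at h1
      exact h1
  · intro p k _ V _ φ hφ hV r G _ D hD n w hw hc
    obtain ⟨A, i1, i2, hA, ⟨e⟩⟩ := Pool.Agent.H258.AM.Frob.exists_model p k φ hφ hV
    obtain ⟨d⟩ := hD
    refine h3 r (Pool.Agent.Results.MP_e9d015_al.FrobeniusSystems.Fr p k A) ?_ G D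
      ⟨d.trans e⟩ n w hw hc
    intro n w hw
    have := Pool.Agent.Results.MP_e9d015_al.FrobeniusSystems.result.1 p k A hA
      (Pool.Agent.Results.MP_e9d015_al.FrobeniusSystems.Fr p k A) ⟨MulEquiv.refl _⟩ n w (by
        rw [expMat_library, Matrix.det_transpose]; exact hw)
    exact this r

end Pool.Agent.Results.MP_9999b4_al.CoefficientGroup
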