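import Pool.Agent.H359.KX.Dihedral
import Pool.Agent.H359.KX.Torus
import Pool.Graph.R_seed8.Y870.KV.Inj

/-!
# Products of conjugacy classes under Kervaire extensions: free products as coefficient groups

Let `A`, `B` be nontrivial groups which are not both of order two, and let `G` be any group which
maps onto the free product `A * B` (for instance `A * B` itself). There are `x`, `u` in `G` such
that for the single equation `t t x t⁻¹ u = 1` in one unknown (a nonsingular system) the map
`G → H` is injective and for every `r ≥ 11` there are `g_1, …, g_r` in `G` with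
`1 ∈ ∏ g_i ^ H` and `1 ∉ ∏ g_i ^ G`.

The criterion behind it: `N` is a normal subgroup of `G` with a homomorphism `ρ` to the free group
on `s_0`, `s_1`, `x`, `u` are elements of `N` with `ρ x = s_0`, `ρ u = s_1`, and `ρ` sends every
`G`-conjugate of `x`, `u` to `1` or to a conjugate of one of `s_0`, `s_0⁻¹`, `s_1`, `s_1⁻¹`.

Conversely Q1 holds over the free product of two groups of order two, the infinite dihedral group
(library, `FrobeniusSystems`), so Q1 holds over `A * B` if and only if `A` and `B` have order two.

In particular Q1 fails over the group `⟨a, b | a ^ p = b ^ q⟩`, `p, q ≥ 2`, not both equal to `2`, for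
instance over the groups of the torus knots and the braid group `B_3` (`p = 2`, `q = 3`), which are
torsion-free and locally indicable (well known, not proved here); all images of these groups in
free groups are commutative.

The elements are the letters of a word of length `26` which is not a product of at most ten
conjugates of letters in the free group (deletion lemma of the library and a search done by the
kernel), but is a product of ten conjugates of letters in every group with `t t x t⁻¹ u = 1`.
For the free products `ρ` comes from a homomorphism to the wreath product of the free group and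
`A × B` (or the symmetric group of degree four for the factors of order `2`, `3`).
-/

set_option autoImplicit false

namespace Pool.Agent.Results.MP_9999b4_al.EveryFreeProduct

open Pool.Agent.H359.KX
open Pool.Agent.Y870.KV (ps ps_comp OIP oip_iff fam jG jF j_eq ta_inj ta_zero ta_one)
open Monoid (Coprod)

/-- the free product of `G` and the free group on `t_1, ..., t_n` -/
abbrev Words (G : Type) [Group G] (n : ℕ) : Type := Monoid.Coprod G (FreeGroup (Fin n))

/-- the exponent sum of `t_i` in a word -/
def expSum {G : Type} [Group G] {n : ℕ} (i : Fin n) (w : Words G n) : ℤ :=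
  Multiplicative.toAdd (Monoid.Coprod.lift (1 : G →* Multiplicative ℤ)
    (FreeGroup.lift (fun k : Fin n => if k = i then Multiplicative.ofAdd (1 : ℤ) else 1)) w)

/-- a nonsingular system -/
def Nonsingular {G : Type} [Group G] {n : ℕ} (w : Fin n → Words G n) : Prop :=
  (Matrix.of (fun i j : Fin n => expSum i (w j))).det ≠ 0

/-- the group `H` of a system -/
abbrev Ext {G : Type} [Group G] {n : ℕ} (w : Fin n → Words G n) : Type :=
  Words G n ⧸ Subgroup.normalClosure (Set.range w)

/-- the map from `G` to `H` -/
def incl {G : Type} [Group G] {n : ℕ} (w : Fin n → Words G n) : G →* Ext w :=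
  (QuotientGroup.mk' (Subgroup.normalClosure (Set.range w))).comp Monoid.Coprod.inl

/-- `1` is in the product of the conjugacy classes of `g_1, ..., g_r` -/
def OneInProduct {A : Type} [Group A] {r : ℕ} (g : Fin r → A) : Prop :=
  ∃ c : Fin r → A, (List.ofFn (fun i => c i * g i * (c i)⁻¹)).prod = 1

/-- the unknown `t` -/
def unknown (G : Type) [Group G] : Words G 1 := Monoid.Coprod.inr (FreeGroup.of 0)

/-- the system which consists of the single word `t t x t⁻¹ u` in one unknown `t` -/
def weightThree {G : Type} [Group G] (x u : G) : Fin 1 → Words G 1 := fun _ =>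
  unknown G * unknown G * Monoid.Coprod.inl x * (unknown G)⁻¹ * Monoid.Coprod.inl u

/-- the failure of the implication of the problem for the system `w` and `r` elements -/
def FailsFor {G : Type} [Group G] {n : ℕ} (w : Fin n → Words G n) (r : ℕ) : Prop :=
  ∃ g : Fin r → G, OneInProduct (fun i => incl w (g i)) ∧ ¬ OneInProduct g

/-- the relation in `H` -/
theorem rel {G : Type} [Group G] (x u : G) :
    (QuotientGroup.mk' (Subgroup.normalClosure (Set.range (weightThree x u))) (unknown G)) *
      (QuotientGroup.mk' _ (unknown G)) * incl (weightThree x u) x *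
      (QuotientGroup.mk' _ (unknown G))⁻¹ * incl (weightThree x u) u = 1 := by
  have h : weightThree x u 0 ∈ Subgroup.normalClosure (Set.range (weightThree x u)) :=
    Subgroup.subset_normalClosure ⟨0, rfl⟩
  have h2 := (QuotientGroup.eq_one_iff _).2 h
  exact h2

/-- maps out of `H` -/
theorem exists_map {G P : Type} [Group G] [Group P] (x u : G) (j : G →* P) (t : P)
    (h : t * t * j x * t⁻¹ * j u = 1) :
    ∃ β : Ext (weightThree x u) →* P, (∀ g, β (incl (weightThree x u) g) = j g) ∧
      β (QuotientGroup.mk' _ (unknown G)) = t := by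
  have hw : ∀ v ∈ Set.range (weightThree x u), (Monoid.Coprod.lift j
      (FreeGroup.lift (fun _ : Fin 1 => t))) v = 1 := by
    rintro _ ⟨i, rfl⟩
    simp only [weightThree, unknown, map_mul, map_inv, Monoid.Coprod.lift_apply_inl,
      Monoid.Coprod.lift_apply_inr, FreeGroup.lift_apply_of]
    exact h
  refine ⟨QuotientGroup.lift _ (Monoid.Coprod.lift j (FreeGroup.lift (fun _ : Fin 1 => t)))
      (fun v hv => (Subgroup.normalClosure_le_normal (N := MonoidHom.ker _)
        (fun v hv => hw v hv)) hv), ?_, ?_⟩
  · intro g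
    show (Monoid.Coprod.lift j (FreeGroup.lift (fun _ : Fin 1 => t))) (Monoid.Coprod.inl g) = j g
    rw [Monoid.Coprod.lift_apply_inl]
  · show (Monoid.Coprod.lift j (FreeGroup.lift (fun _ : Fin 1 => t)))
      (Monoid.Coprod.inr (FreeGroup.of 0)) = t
    rw [Monoid.Coprod.lift_apply_inr, FreeGroup.lift_apply_of]

theorem expSum_w {G : Type} [Group G] (x u : G) : expSum 0 (weightThree x u 0) = 1 := by
  simp [expSum, weightThree, unknown]

theorem nonsingular_w {G : Type} [Group G] (x u : G) : Nonsingular (weightThree x u) := by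
  rw [Nonsingular, Matrix.det_fin_one, Matrix.of_apply, expSum_w]
  exact one_ne_zero

/-- `1`, or a conjugate of one of the two free generators, or of the inverse of one of them -/
def LetterLike (g : FreeGroup (Fin 2)) : Prop :=
  g = 1 ∨ ∃ (c : FreeGroup (Fin 2)) (i : Fin 2),
    g = c * FreeGroup.of i * c⁻¹ ∨ g = c * (FreeGroup.of i)⁻¹ * c⁻¹

/-- the failure of Q1 for the equation `t t x t⁻¹ u = 1`: the system is nonsingular, `G → H` is
injective, and for every `r ≥ 11` the implication of Q1 fails for suitable `g_1, ..., g_r` -/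
def Breaks {G : Type} [Group G] (x u : G) : Prop :=
  Nonsingular (weightThree x u) ∧ Function.Injective (incl (weightThree x u)) ∧
    ∀ r : ℕ, 11 ≤ r → FailsFor (weightThree x u) r

/-- `ρ` sends every element of `N` which is conjugate in `G` to `x` to `1` or a conjugate of a free
generator or of its inverse -/
def SentToLetters {G : Type} [Group G] {N : Subgroup G} (ρ : N →* FreeGroup (Fin 2)) (x : N) :
    Prop :=
  ∀ (g : G) (y : N), (y : G) = g * x * g⁻¹ → LetterLike (ρ y)

/-- every element of `N` which is conjugate in `G` to `x` is conjugate in `N` to an element of the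
basis `b` or to the inverse of one -/
def ConjToBasis {G : Type} [Group G] {N : Subgroup G} {ι : Type} (b : FreeGroupBasis ι N)
    (x : N) : Prop :=
  ∀ (g : G) (y : N), (y : G) = g * x * g⁻¹ → ∃ (k : ι) (c : N),
    y = c * b k * c⁻¹ ∨ y = c * (b k)⁻¹ * c⁻¹

/-- Q1 for the coefficient group `G`: the implication for all nonsingular systems over `G`, all `r`
and all `g_1, ..., g_r` in `G` -/
def HoldsOver (G : Type) [Group G] : Prop :=
  ∀ (n : ℕ) (w : Fin n → Words G n), Nonsingular w → ∀ (r : ℕ) (g : Fin r → G),
    OneInProduct (fun i => incl w (g i)) → OneInProduct g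

/-- the group `⟨a, b | a ^ p = b ^ q⟩` -/
abbrev Torus (p q : ℕ) : Type :=
  PresentedGroup ({FreeGroup.of 0 ^ p * (FreeGroup.of 1 ^ q)⁻¹} : Set (FreeGroup (Fin 2)))

/-- all images of `G` in free groups are commutative -/
def CommutativeImages (G : Type) [Group G] : Prop :=
  ∀ (α : Type) (f : G →* FreeGroup α) (g h : G), f g * f h = f h * f g

theorem LetterLike.lett {g : FreeGroup (Fin 2)} (h : LetterLike g) : Lett g := by
  rcases h with rfl | ⟨c, i, rfl | rfl⟩
  · exact Lett.one
  · exact (Lett.of i).conj c
  · exact (Lett.of i).inv.conj c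

/-- the elements with the required property -/
theorem fails {G : Type} [Group G] (x u : G)
    (h : ∀ (s : ℕ) (L : List (G × G)), L.map Prod.snd = el x u s →
      (L.map fun p => p.1 * p.2 * p.1⁻¹).prod ≠ 1) (r : ℕ) (hr : 11 ≤ r) :
    FailsFor (weightThree x u) r := by
  obtain ⟨s, rfl⟩ := Nat.exists_eq_add_of_le hr
  obtain ⟨g, hg⟩ := Pool.Agent.Y874.StB.exists_fn (el x u s) (el_length x u s)
  refine ⟨g, ?_, ?_⟩
  · obtain ⟨L, h1, h2⟩ := in_H (rel x u) s
    have key : OIP (fun i => incl (weightThree x u) (g i)) := by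
      rw [oip_iff]
      refine ⟨L, ?_, h2⟩
      rw [h1, ← el_map (incl (weightThree x u)), ← hg, List.map_ofFn]
      rfl
    exact key
  · intro h'
    have h'' : OIP g := h'
    rw [oip_iff] at h''
    obtain ⟨L, h1, h2⟩ := h''
    rw [hg] at h1
    exact h s L h1 h2

/-- injectivity of `G → H` if `x`, `u` are free generators of a subgroup -/
theorem incl_injective {G : Type} [Group G] (x u : G) (h : Function.Injective (ps x u)) :
    Function.Injective (incl (weightThree x u)) := by
  have hf : ∀ i, Function.Injective (fam x u i) := by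
    intro i
    cases i with
    | true => exact h
    | false => exact ta_inj
  have hj : Function.Injective (jG x u) := Monoid.PushoutI.of_injective hf true
  have h0 := j_eq x u (FreeGroup.of 0)
  have h1 := j_eq x u (FreeGroup.of 1)
  have e0 : ps x u (FreeGroup.of 0) = x := by
    rw [Pool.Agent.Y870.KV.ps, FreeGroup.lift_apply_of]; rfl
  have e1 : ps x u (FreeGroup.of 1) = u := by
    rw [Pool.Agent.Y870.KV.ps, FreeGroup.lift_apply_of]; rfl
  rw [e0, ta_zero] at h0
  rw [e1, ta_one] at h1
  obtain ⟨β, hβ, -⟩ := exists_map x u (jG x u) (jF x u (FreeGroup.of 1)) (by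
    rw [h0, h1]
    simp only [map_mul, map_inv]
    group)
  intro a b hab
  apply hj
  rw [← hβ, ← hβ, hab]

/-- the criterion -/
theorem criterion (G : Type) [Group G] (N : Subgroup G) [N.Normal] (ρ : N →* FreeGroup (Fin 2))
    (x u : N) (hx : ρ x = FreeGroup.of 0) (hu : ρ u = FreeGroup.of 1)
    (hcx : ∀ (g : G) (y : N), (y : G) = g * x * g⁻¹ → Lett (ρ y))
    (hcu : ∀ (g : G) (y : N), (y : G) = g * u * g⁻¹ → Lett (ρ y)) :
    Breaks (x : G) (u : G) := by
  refine ⟨nonsingular_w _ _, ?_, ?_⟩
  · apply incl_injective
    have hρ := Pool.Agent.Y870.KV.ps_inj ρ hx hu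
    intro a b h
    apply hρ
    apply Subtype.ext
    have e : ∀ z, ps (x : G) (u : G) z = ((ps x u z : N) : G) := fun z =>
      (ps_comp N.subtype x u z).symm
    rw [← e, ← e, h]
  · intro r hr
    refine fails _ _ ?_ r hr
    intro s L h1 h2
    exact not_in N ρ hx hu hcx hcu s L h1 h2

/-- the criterion for a free normal subgroup -/
theorem free_normal (G : Type) [Group G] (N : Subgroup G) [N.Normal] (ι : Type)
    (b : FreeGroupBasis ι N) (i j : ι) (hij : i ≠ j) (hi : ConjToBasis b (b i))
    (hj : ConjToBasis b (b j)) : Breaks (b i : G) (b j : G) := by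
  classical
  let f : ι → FreeGroup (Fin 2) := fun k =>
    if k = i then FreeGroup.of 0 else if k = j then FreeGroup.of 1 else 1
  let ρ : N →* FreeGroup (Fin 2) := (FreeGroup.lift f).comp b.repr.toMonoidHom
  have hρ : ∀ k, ρ (b k) =
      if k = i then FreeGroup.of 0 else if k = j then FreeGroup.of 1 else 1 := by
    intro k
    show FreeGroup.lift f (b.repr (b k)) = _
    rw [FreeGroupBasis.repr_apply_coe, FreeGroup.lift_apply_of]
  have hk : ∀ k, Lett (ρ (b k)) := by
    intro k
    rw [hρ]
    split_ifs
    · exact Lett.of 0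
    · exact Lett.of 1
    · exact Lett.one
  have key : ∀ x : N, ConjToBasis b x →
      ∀ (g : G) (y : N), (y : G) = g * x * g⁻¹ → Lett (ρ y) := by
    intro x hx g y hy
    obtain ⟨k, c, h | h⟩ := hx g y hy
    · rw [h, map_mul, map_mul, map_inv]
      exact (hk k).conj _
    · rw [h, map_mul, map_mul, map_inv, map_inv]
      exact (hk k).inv.conj _
  refine criterion G N ρ (b i) (b j) ?_ ?_ (key _ hi) (key _ hj)
  · rw [hρ, if_pos rfl]
  · rw [hρ, if_neg hij.symm, if_pos rfl]

theorem expMat_library {G : Type} [Group G] {n : ℕ} (w : Fin n → Words G n) :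
    (Pool.Agent.Results.MP_e9d015_al.FrobeniusSystems.expMat w) =
      (Matrix.of (fun i j : Fin n => expSum i (w j))).transpose := by
  ext j i
  simp only [Pool.Agent.Results.MP_e9d015_al.FrobeniusSystems.expMat, Matrix.of_apply,
    Matrix.transpose_apply]
  let ev : Multiplicative (Fin n → ℤ) →* Multiplicative ℤ :=
    AddMonoidHom.toMultiplicative (Pi.evalAddMonoidHom (fun _ : Fin n => ℤ) i)
  have h : ev.comp (Pool.Agent.Results.MP_e9d015_al.FrobeniusSystems.exv G n) =
      Monoid.Coprod.lift (1 : G →* Multiplicative ℤ)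
        (FreeGroup.lift (fun k : Fin n => if k = i then Multiplicative.ofAdd (1 : ℤ) else 1)) := by
    apply Coprod.hom_ext
    · ext g
      simp [Pool.Agent.Results.MP_e9d015_al.FrobeniusSystems.exv]
    · apply FreeGroup.ext_hom
      intro k
      simp only [Pool.Agent.Results.MP_e9d015_al.FrobeniusSystems.exv, MonoidHom.comp_apply,
        Coprod.lift_apply_inr, FreeGroup.lift_apply_of, ev]
      show (Pi.single k (1 : ℤ) : Fin n → ℤ) i =
        Multiplicative.toAdd (if k = i then Multiplicative.ofAdd (1 : ℤ) else 1)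
      by_cases hk : k = i
      · subst hk; simp
      · rw [if_neg hk, Pi.single_eq_of_ne (Ne.symm hk)]; rfl
  have := DFunLike.congr_fun h (w j)
  exact congrArg Multiplicative.toAdd this

/-- Q1 over the free product of two groups of order two (a result of the library) -/
theorem holds_dihedral (A B : Type) [Group A] [Group B] (hA : Nat.card A = 2)
    (hB : Nat.card B = 2) : HoldsOver (Coprod A B) := by
  obtain ⟨e⟩ := dihedral A B hA hB
  intro n w hw r g h
  have h1 := Pool.Agent.Results.MP_e9d015_al.FrobeniusSystems.result.2.1 (ZMod 0) (Coprod A B)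
    ⟨e.trans (Pool.Agent.Results.MP_e9d015_al.FrobeniusSystems.dihEquiv 0)⟩ n w (by
      rw [expMat_library, Matrix.det_transpose]; exact hw)
  exact h1 r g h

theorem result :
    (∀ (A B : Type) [Group A] [Group B] [Nontrivial A] [Nontrivial B],
      (HoldsOver (Coprod A B) ↔ Nat.card A = 2 ∧ Nat.card B = 2) ∧
      (¬ (Nat.card A = 2 ∧ Nat.card B = 2) →
        ∀ (G : Type) [Group G] (π : G →* Coprod A B), Function.Surjective π →
          ∃ x u : G, Breaks x u)) ∧
    (∀ p q : ℕ, 2 ≤ p → 2 ≤ q → ¬ (p = 2 ∧ q = 2) →
      (∃ x u : Torus p q, Breaks x u) ∧ CommutativeImages (Torus p q)) ∧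
    (∀ (G : Type) [Group G] (N : Subgroup G) [N.Normal] (ρ : N →* FreeGroup (Fin 2)) (x u : N),
      ρ x = FreeGroup.of 0 → ρ u = FreeGroup.of 1 → SentToLetters ρ x → SentToLetters ρ u →
      Breaks (x : G) (u : G)) ∧
    (∀ (G : Type) [Group G] (N : Subgroup G) [N.Normal] (ι : Type) (b : FreeGroupBasis ι N)
      (i j : ι), i ≠ j → ConjToBasis b (b i) → ConjToBasis b (b j) →
      Breaks (b i : G) (b j : G)) := by
  have main : ∀ (A B : Type) [Group A] [Group B] [Nontrivial A] [Nontrivial B],
      ¬ (Nat.card A = 2 ∧ Nat.card B = 2) →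
        ∀ (G : Type) [Group G] (π : G →* Coprod A B), Function.Surjective π →
          ∃ x u : G, Breaks x u := by
    intro A B _ _ _ _ hAB G _ π hπ
    obtain ⟨x₀, u₀, hw⟩ := works_all A B hAB
    obtain ⟨x, rfl⟩ := hπ x₀
    obtain ⟨u, rfl⟩ := hπ u₀
    obtain ⟨N, _, hx, hu, ρ, h1, h2, h3, h4⟩ := (Works.comap π hw).exists_normal
    exact ⟨x, u, criterion G N ρ ⟨x, hx⟩ ⟨u, hu⟩ h1 h2 h3 h4⟩
  refine ⟨?_, ?_, ?_, ?_⟩
  · intro A B _ _ _ _
    refine ⟨⟨?_, fun h => holds_dihedral A B h.1 h.2⟩, main A B⟩
    intro h
    by_contra hc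
    obtain ⟨x, u, h1, -, h3⟩ := main A B hc (Coprod A B) (MonoidHom.id _) Function.surjective_id
    obtain ⟨g, hg1, hg2⟩ := h3 11 le_rfl
    exact hg2 (h 1 _ h1 11 g hg1)
  · intro p q hp hq hpq
    haveI : NeZero p := ⟨by omega⟩
    haveI : NeZero q := ⟨by omega⟩
    haveI : Fact (1 < p) := ⟨by omega⟩
    haveI : Fact (1 < q) := ⟨by omega⟩
    refine ⟨?_, fun α f g h => image_comm p q (by omega) α f g h⟩
    obtain ⟨f, hf⟩ := exists_onto p q
    refine main (Cyc p) (Cyc q) ?_ (Torus p q) f hf
    rintro ⟨h1, h2⟩
    apply hpq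
    have c1 : Nat.card (Cyc p) = p := Nat.card_zmod p
    have c2 : Nat.card (Cyc q) = q := Nat.card_zmod q
    exact ⟨c1.symm.trans h1, c2.symm.trans h2⟩
  · intro G _ N _ ρ x u hx hu hcx hcu
    exact criterion G N ρ x u hx hu (fun g y hy => (hcx g y hy).lett)
      (fun g y hy => (hcu g y hy).lett)
  · intro G _ N _ ι b i j hij hi hj
    exact free_normal G N ι b i j hij hi hj

end Pool.Agent.Results.MP_9999b4_al.EveryFreeProduct
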