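import Pool.Agent.H408.ND.DepP
import Pool.Graph.R_pool_sql_team_seeded_6b51deec.Results.MP_9999b4_al.AbelianImages

/-!
# Products of conjugacy classes under Kervaire extensions: generating tuples

Let `G → H` be a Kervaire extension, given by any nonsingular system, let `θ` be a homomorphism from
`G` to a group `N` and `M` a subgroup of `N` which contains `θ(g_1), …, θ(g_r)`, with
`M ∩ [N, N] = [M, M]` (for instance `M = N`, or a retract of `N`).  Suppose that `M` is
abelian-by-nilpotent (for instance nilpotent or metabelian) and `θ(g_1), …, θ(g_r)` generate `M` modulo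
commutators, or that `M` has an abelian normal subgroup of index a power of a prime `p` and
`θ(g_1), …, θ(g_r)` generate `M` modulo commutators and `p`-th powers.  If `1` is a product of
`H`-conjugates of `g_1, …, g_r`, then `1` is a product of `M`-conjugates of `θ(g_1), …, θ(g_r)`.  For
`N = G` this is the implication of the problem.

The reason is that under these assumptions the product of the conjugacy classes of
`θ(g_1), …, θ(g_r)` in `M` is the whole coset of the commutator subgroup of `M`.
-/

set_option autoImplicit false

namespace Pool.Agent.Results.MP_9999b4_al.GeneratingTuples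

/-- abelian-by-nilpotent groups: some term of the lower central series is abelian -/
def AbelianByNilpotent (M : Type) [Group M] : Prop :=
  ∃ k : ℕ, ∀ x ∈ Subgroup.lowerCentralSeries (⊤ : Subgroup M) k,
    ∀ y ∈ Subgroup.lowerCentralSeries (⊤ : Subgroup M) k, x * y = y * x

/-- the group has an abelian normal subgroup of index a power of `p` -/
def AbelianByP (p : ℕ) (M : Type) [Group M] : Prop :=
  ∃ (A : Subgroup M) (m : ℕ), A.Normal ∧ (∀ x ∈ A, ∀ y ∈ A, x * y = y * x) ∧ A.index = p ^ m

/-- `g_1, …, g_r` generate the group `M` together with all commutators -/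
def GenerateModComm {M : Type} [Group M] {r : ℕ} (g : Fin r → M) : Prop :=
  Subgroup.closure (Set.range g) ⊔ commutator M = ⊤

/-- `g_1, …, g_r` generate the group `M` together with all commutators and all `p`-th powers -/
def SpanModP (p : ℕ) {M : Type} [Group M] {r : ℕ} (g : Fin r → M) : Prop :=
  Subgroup.closure (Set.range g) ⊔
    (commutator M ⊔ Subgroup.closure (Set.range fun x : M => x ^ p)) = ⊤

/-- **Conjecture G for generating tuples.** -/
theorem result (G : Type) [Group G] (n : ℕ)
    (w : Fin n → Monoid.Coprod G (FreeGroup (Fin n)))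
    (hw : (Matrix.of (fun i j : Fin n => Multiplicative.toAdd
        (Monoid.Coprod.lift (1 : G →* Multiplicative ℤ)
          (FreeGroup.lift (fun k : Fin n =>
            if k = i then Multiplicative.ofAdd (1 : ℤ) else 1)) (w j)))).det ≠ 0)
    (r : ℕ) (g : Fin r → G)
    (hg : ∃ h : Fin r → (Monoid.Coprod G (FreeGroup (Fin n)) ⧸
              Subgroup.normalClosure (Set.range w)),
          (List.ofFn (fun i => h i *
              QuotientGroup.mk' (Subgroup.normalClosure (Set.range w))
                (Monoid.Coprod.inl (g i)) * (h i)⁻¹)).prod = 1)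
    (N : Type) [Group N] (θ : G →* N) (M : Subgroup N)
    (hM : ∀ x : M, (x : N) ∈ commutator N → x ∈ commutator M)
    (y : Fin r → M) (hy : ∀ i, (y i : N) = θ (g i))
    (hy' : (AbelianByNilpotent M ∧ GenerateModComm y) ∨
      ∃ p : ℕ, p.Prime ∧ AbelianByP p M ∧ SpanModP p y) :
    ∃ x : Fin r → M, (List.ofFn (fun i => x i * y i * (x i)⁻¹)).prod = 1 := by
  have h1 := Pool.Agent.Results.MP_9999b4_al.AbelianImages.result G n w hw r g hg
    (Abelianization N) (Abelianization.of.comp θ)
  have h2 : (List.ofFn y).prod⁻¹ * 1 ∈ commutator M := by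
    rw [mul_one]
    apply Subgroup.inv_mem
    apply hM
    have h3 : (((List.ofFn y).prod : M) : N) = (List.ofFn fun i => θ (g i)).prod := by
      have h4 := map_list_prod M.subtype (List.ofFn y)
      rw [List.map_ofFn] at h4
      have h5 : (M.subtype : M → N) ∘ y = fun i => θ (g i) := funext hy
      rw [h5] at h4
      exact h4
    rw [h3, ← Abelianization.ker_of, MonoidHom.mem_ker, map_list_prod, List.map_ofFn,
      List.prod_ofFn]
    exact h1
  have h3 : Pool.Agent.H408.ND.DependentOn (1 : M) y := by
    rcases hy' with ⟨⟨k, hk⟩, hgen⟩ | ⟨p, hp, ⟨A, m, hA, hc, hm⟩, hgen⟩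
    · exact Pool.Agent.H408.ND.dep_core k hk _ hgen h2
    · have hp' : Fact p.Prime := ⟨hp⟩
      exact Pool.Agent.H408.ND.p_core A hc hm _ hgen h2
  obtain ⟨c, hc⟩ := h3
  exact ⟨c, hc.symm⟩

end Pool.Agent.Results.MP_9999b4_al.GeneratingTuples
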